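import Pool.Agent.Y317.VM.Osc

/-!
Continuity of the solutions in `ε`.
-/

set_option autoImplicit false

open Set Filter Topology

namespace Pool.Agent.Y317.VM

variable {N : ℕ} {V : ℝ → ℝ}

/-- strict comparison of the end values -/
theorem cmp {M ε E₁ E₂ : ℝ} (hM : 0 < M) (hε : 0 < ε) (hE : E₁ < E₂) {w₁ w₂ : ℝ → ℝ}
    (h1 : ∀ t, HasDerivAt w₁ (rh V M ε E₁ t (w₁ t)) t)
    (h2 : ∀ t, HasDerivAt w₂ (rh V M ε E₂ t (w₂ t)) t) (h0 : w₁ 0 = w₂ 0) :
    w₁ (1 / 2) < w₂ (1 / 2) := by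
  set c : ℝ := (E₂ - E₁) / (2 * (M + ε)) with hc
  have hd : 0 < E₂ - E₁ := by linarith
  have hc0 : 0 < c := by positivity
  have hcm : c * (M + ε) = (E₂ - E₁) / 2 := by rw [hc]; field_simp
  have h := barrier (w := fun t => w₁ t - w₂ t) (fun t => (h1 t).fun_sub (h2 t)) (a := 0)
    (b := 1 / 2) (p := 0) (c := -c) (by simp [h0]) (fun t ht hz => by
      have h3 := tr_lip hM (w₁ t) (w₂ t)
      have h4 : |w₁ t - w₂ t| ≤ c / 2 := by
        rw [hz, zero_add, sub_zero, neg_mul, abs_neg, abs_mul, abs_of_pos hc0, abs_of_nonneg ht.1]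
        nlinarith [ht.2]
      have h5 := (abs_le.1 h3).2
      have h6 : 2 * M * |w₁ t - w₂ t| ≤ M * c := by
        calc 2 * M * |w₁ t - w₂ t| ≤ 2 * M * (c / 2) :=
              mul_le_mul_of_nonneg_left h4 (by positivity)
          _ = M * c := by ring
      unfold rh
      rw [← sub_div, div_lt_iff₀ hε]
      nlinarith) (1 / 2) ⟨by norm_num, le_rfl⟩
  simp only [sub_zero, zero_add] at h
  linarith

/-- dependence on both parameters -/
theorem dep {M ε ε₀ B E E₀ : ℝ} (hM : 0 < M) (hε : 0 < ε) (hε₀ : 0 < ε₀) (hV : ∀ t, |V t| ≤ B)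
    {w u : ℝ → ℝ} (hu : ∀ t, HasDerivAt u (rh V M ε₀ E₀ t (u t)) t)
    (hw : ∀ t, HasDerivAt w (rh V M ε E t (w t)) t) (h0 : u 0 = w 0) :
    ∀ t ∈ Icc (0 : ℝ) (1 / 2), |u t - w t| ≤
      (|E - E₀| / ε + (M ^ 2 + B + |E₀|) * |ε⁻¹ - ε₀⁻¹|) *
        (Real.exp ((2 * M / ε₀) / 2) / (2 * M / ε₀)) := by
  set θ : ℝ := |E - E₀| / ε + (M ^ 2 + B + |E₀|) * |ε⁻¹ - ε₀⁻¹| with hθ
  have hB : 0 ≤ B := (abs_nonneg _).trans (hV 0)
  have hθ0 : 0 ≤ θ := by positivity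
  have hKpos : 0 < 2 * M / ε₀ := by positivity
  intro t ht
  have := dist_le_of_approx_trajectories_ODE (v := rh V M ε₀ E₀) (f := u) (g := w)
    (f' := fun t => rh V M ε₀ E₀ t (u t)) (g' := fun t => rh V M ε E t (w t)) (a := 0) (b := 1 / 2)
    (εf := 0) (εg := θ) (δ := 0) (fun t => rh_lip hM hε₀ E₀ t)
    (fun t _ => (hu t).continuousAt.continuousWithinAt) (fun t _ => (hu t).hasDerivWithinAt)
    (fun t _ => by simp)
    (fun t _ => (hw t).continuousAt.continuousWithinAt) (fun t _ => (hw t).hasDerivWithinAt)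
    (fun t _ => by
      rw [Real.dist_eq]
      unfold rh
      have e1 : (tr M (w t) - V t + E) / ε - (tr M (w t) - V t + E₀) / ε₀ =
          (E - E₀) / ε + (tr M (w t) - V t + E₀) * (ε⁻¹ - ε₀⁻¹) := by
        field_simp
        ring
      rw [e1, hθ]
      refine (abs_add_le _ _).trans (add_le_add ?_ ?_)
      · rw [abs_div, abs_of_pos hε]
      · rw [abs_mul]
        refine mul_le_mul_of_nonneg_right ?_ (abs_nonneg _)
        have h1 : |tr M (w t)| ≤ M ^ 2 := by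
          rw [abs_of_nonneg (tr_nonneg M _)]
          exact tr_le hM _
        have h2 := hV t
        rw [abs_le] at h1 h2 ⊢
        have h3 := neg_abs_le E₀
        have h4 := le_abs_self E₀
        constructor <;> linarith [h1.1, h1.2, h2.1, h2.2]) (by simp [h0]) t ht
  rw [Real.dist_eq, Real.coe_toNNReal _ hKpos.le, zero_add, sub_zero,
    gronwallBound_of_K_ne_0 hKpos.ne'] at this
  refine this.trans ?_
  change 0 * Real.exp (2 * M / ε₀ * t) + θ / (2 * M / ε₀) * (Real.exp (2 * M / ε₀ * t) - 1) ≤ _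
  rw [zero_mul, zero_add, div_mul_eq_mul_div, mul_div_assoc]
  refine mul_le_mul_of_nonneg_left (div_le_div_of_nonneg_right ?_ hKpos.le) hθ0
  have h5 : Real.exp (2 * M / ε₀ * t) ≤ Real.exp ((2 * M / ε₀) / 2) := by
    apply Real.exp_le_exp.2
    have := mul_le_mul_of_nonneg_left ht.2 hKpos.le
    linarith
  linarith

theorem Sol.rh {ε E : ℝ} {w v : ℝ → ℝ} (hs : Sol N V ε E w v) :
    ∀ t, HasDerivAt w (VM.rh V (MM N) ε E t (w t)) t := by
  intro t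
  have := hs.ode t
  unfold VM.rh
  rwa [tr_eq (hs.bd t)]

/-- the constant of the solution is continuous -/
theorem tendsto_const {B : ℝ} (hVc : Continuous V) (hV : ∀ t, |V t| ≤ B) {E : ℝ → ℝ}
    {w v : ℝ → ℝ → ℝ} (hs : ∀ ε, 0 < ε → Sol N V ε (E ε) (w ε) (v ε)) {ε₀ : ℝ} (hε₀ : 0 < ε₀) :
    Tendsto E (𝓝 ε₀) (𝓝 (E ε₀)) := by
  have hM := MM_pos (N := N)
  -- the end value for a fixed constant is continuous in `ε`
  have key : ∀ E' : ℝ, ∃ W : ℝ → ℝ → ℝ, (∀ ε, 0 < ε → W ε 0 = 0 ∧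
      ∀ t, HasDerivAt (W ε) (VM.rh V (MM N) ε E' t (W ε t)) t) ∧
      Tendsto (fun ε => W ε (1 / 2)) (𝓝 ε₀) (𝓝 (W ε₀ (1 / 2))) := by
    intro E'
    have hex : ∀ ε : ℝ, ∃ W : ℝ → ℝ, 0 < ε → W 0 = 0 ∧
        ∀ t, HasDerivAt W (VM.rh V (MM N) ε E' t (W t)) t := by
      intro ε
      by_cases hε : 0 < ε
      · obtain ⟨W, h1, h2⟩ := exists_rh hM hε hVc hV E'
        exact ⟨W, fun _ => ⟨h1, h2⟩⟩
      · exact ⟨0, fun h => absurd h hε⟩
    choose W hW using hex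
    refine ⟨W, hW, ?_⟩
    rw [tendsto_iff_dist_tendsto_zero]
    have hlim : Tendsto (fun ε => (|E' - E'| / ε + (MM N ^ 2 + B + |E'|) * |ε⁻¹ - ε₀⁻¹|) *
        (Real.exp ((2 * MM N / ε₀) / 2) / (2 * MM N / ε₀))) (𝓝 ε₀) (𝓝 0) := by
      have h1 : ContinuousAt (fun ε : ℝ => (|E' - E'| / ε + (MM N ^ 2 + B + |E'|) * |ε⁻¹ - ε₀⁻¹|) *
        (Real.exp ((2 * MM N / ε₀) / 2) / (2 * MM N / ε₀))) ε₀ := by
        have := hε₀.ne'
        fun_prop (disch := assumption)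
      have h2 := h1.tendsto
      simpa using h2
    refine squeeze_zero' (Eventually.of_forall fun _ => dist_nonneg) ?_ hlim
    filter_upwards [lt_mem_nhds hε₀] with ε hε
    rw [Real.dist_eq, abs_sub_comm]
    exact dep hM hε hε₀ hV (hW ε₀ hε₀).2 (hW ε hε).2 (by rw [(hW ε₀ hε₀).1, (hW ε hε).1]) (1 / 2)
      ⟨by norm_num, le_rfl⟩
  rw [tendsto_order]
  constructor
  · intro E' hE'
    obtain ⟨W, hW, hlim⟩ := key E'
    have h1 : W ε₀ (1 / 2) < 0 := by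
      rw [← (hs ε₀ hε₀).w1]
      exact cmp hM hε₀ hE' (hW ε₀ hε₀).2 (hs ε₀ hε₀).rh
        (by rw [(hW ε₀ hε₀).1, (hs ε₀ hε₀).w0])
    filter_upwards [hlim.eventually (gt_mem_nhds h1), lt_mem_nhds hε₀] with ε h2 hε
    by_contra hcon
    push Not at hcon
    rcases hcon.eq_or_lt with h3 | h3
    · have h4 : W ε = w ε := by
        refine rh_unique (t₀ := 0) hM hε (hW ε hε).2 ?_ (by rw [(hW ε hε).1, (hs ε hε).w0])
        rw [← h3]
        exact (hs ε hε).rh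
      rw [h4, (hs ε hε).w1] at h2
      exact lt_irrefl _ h2
    · have h4 := cmp hM hε h3 (hs ε hε).rh (hW ε hε).2 (by rw [(hW ε hε).1, (hs ε hε).w0])
      rw [(hs ε hε).w1] at h4
      linarith
  · intro E' hE'
    obtain ⟨W, hW, hlim⟩ := key E'
    have h1 : 0 < W ε₀ (1 / 2) := by
      rw [← (hs ε₀ hε₀).w1]
      exact cmp hM hε₀ hE' (hs ε₀ hε₀).rh (hW ε₀ hε₀).2
        (by rw [(hW ε₀ hε₀).1, (hs ε₀ hε₀).w0])
    filter_upwards [hlim.eventually (lt_mem_nhds h1), lt_mem_nhds hε₀] with ε h2 hε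
    by_contra hcon
    push Not at hcon
    rcases hcon.eq_or_lt with h3 | h3
    · have h4 : W ε = w ε := by
        refine rh_unique (t₀ := 0) hM hε (hW ε hε).2 ?_ (by rw [(hW ε hε).1, (hs ε hε).w0])
        rw [h3]
        exact (hs ε hε).rh
      rw [h4, (hs ε hε).w1] at h2
      exact lt_irrefl _ h2
    · have h4 := cmp hM hε h3 (hW ε hε).2 (hs ε hε).rh (by rw [(hW ε hε).1, (hs ε hε).w0])
      rw [(hs ε hε).w1] at h4
      linarith

/-- the oscillation is continuous in `ε` -/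
theorem tendsto_osc {B : ℝ} (hVc : Continuous V) (hV : ∀ t, |V t| ≤ B) {E : ℝ → ℝ}
    {w v : ℝ → ℝ → ℝ} (hs : ∀ ε, 0 < ε → Sol N V ε (E ε) (w ε) (v ε)) {ε₀ : ℝ} (hε₀ : 0 < ε₀) :
    Tendsto (fun ε => v ε (3 / 8) - v ε (1 / 8)) (𝓝 ε₀) (𝓝 (v ε₀ (3 / 8) - v ε₀ (1 / 8))) := by
  have hM := MM_pos (N := N)
  have hE := tendsto_const hVc hV hs hε₀
  rw [tendsto_iff_dist_tendsto_zero]
  have hlim : Tendsto (fun ε => (|E ε - E ε₀| / ε + (MM N ^ 2 + B + |E ε₀|) * |ε⁻¹ - ε₀⁻¹|) *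
      (Real.exp ((2 * MM N / ε₀) / 2) / (2 * MM N / ε₀))) (𝓝 ε₀) (𝓝 0) := by
    have hEc : ContinuousAt E ε₀ := hE
    have h1 : ContinuousAt (fun ε : ℝ =>
        (|E ε - E ε₀| / ε + (MM N ^ 2 + B + |E ε₀|) * |ε⁻¹ - ε₀⁻¹|) *
        (Real.exp ((2 * MM N / ε₀) / 2) / (2 * MM N / ε₀))) ε₀ := by
      have := hε₀.ne'
      fun_prop (disch := assumption)
    have h2 := h1.tendsto
    simpa using h2
  refine squeeze_zero' (Eventually.of_forall fun _ => dist_nonneg) ?_ hlim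
  filter_upwards [lt_mem_nhds hε₀] with ε hε
  have hd := dep hM hε hε₀ hV (hs ε₀ hε₀).rh (hs ε hε).rh (by rw [(hs ε₀ hε₀).w0, (hs ε hε).w0])
  set C : ℝ := (|E ε - E ε₀| / ε + (MM N ^ 2 + B + |E ε₀|) * |ε⁻¹ - ε₀⁻¹|) *
        (Real.exp ((2 * MM N / ε₀) / 2) / (2 * MM N / ε₀)) with hC
  have hC0 : 0 ≤ C := (abs_nonneg _).trans (hd 0 ⟨le_rfl, by norm_num⟩)
  have m1 := mono_of (f := fun t => C * t - (v ε t - v ε₀ t)) (a := 1 / 8) (b := 3 / 8)
    (f' := fun t => C * 1 - (w ε t - w ε₀ t)) (by norm_num)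
    (fun t _ => ((hasDerivAt_id t).const_mul C).sub (((hs ε hε).prim t).sub ((hs ε₀ hε₀).prim t)))
    (fun t ht => by
      have := (abs_le.1 (hd t ⟨by linarith [ht.1], by linarith [ht.2]⟩)).1
      linarith)
  have m2 := mono_of (f := fun t => C * t + (v ε t - v ε₀ t)) (a := 1 / 8) (b := 3 / 8)
    (f' := fun t => C * 1 + (w ε t - w ε₀ t)) (by norm_num)
    (fun t _ => ((hasDerivAt_id t).const_mul C).add (((hs ε hε).prim t).sub ((hs ε₀ hε₀).prim t)))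
    (fun t ht => by
      have := (abs_le.1 (hd t ⟨by linarith [ht.1], by linarith [ht.2]⟩)).2
      linarith)
  rw [Real.dist_eq, abs_le]
  constructor <;> linarith

end Pool.Agent.Y317.VM
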