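import Mathlib

/-!
Periodic even potentials of class `C^(N+2)` with two wells whose widths alternate with the scale.
-/

set_option autoImplicit false

open Set Filter Topology

namespace Pool.Agent.Y317.VM

/-- `y_+^a (α sin(ω log y) + β cos(ω log y) + γ)`. -/
noncomputable def Q (ω : ℝ) (a : ℕ) (α β γ : ℝ) (y : ℝ) : ℝ :=
  (max y 0) ^ a * (α * Real.sin (ω * Real.log y) + β * Real.cos (ω * Real.log y) + γ)

variable (ω : ℝ)

theorem trig_le (α β γ y : ℝ) :
    |α * Real.sin (ω * Real.log y) + β * Real.cos (ω * Real.log y) + γ| ≤ |α| + |β| + |γ| := by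
  have h1 : |α * Real.sin (ω * Real.log y)| ≤ |α| := by
    rw [abs_mul]
    exact mul_le_of_le_one_right (abs_nonneg _) (Real.abs_sin_le_one _)
  have h2 : |β * Real.cos (ω * Real.log y)| ≤ |β| := by
    rw [abs_mul]
    exact mul_le_of_le_one_right (abs_nonneg _) (Real.abs_cos_le_one _)
  calc _ ≤ |α * Real.sin (ω * Real.log y)| + |β * Real.cos (ω * Real.log y)| + |γ| :=
        abs_add_three _ _ _
    _ ≤ _ := by linarith

theorem Q_abs_le (a : ℕ) (α β γ y : ℝ) : |Q ω a α β γ y| ≤ |y| ^ a * (|α| + |β| + |γ|) := by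
  unfold Q
  rw [abs_mul, abs_pow]
  have h1 : |max y 0| ≤ |y| := by
    rw [abs_of_nonneg (le_max_right _ _)]
    exact max_le (le_abs_self _) (abs_nonneg _)
  exact mul_le_mul (pow_le_pow_left₀ (abs_nonneg _) h1 _) (trig_le _ _ _ _ _) (abs_nonneg _)
    (by positivity)

theorem Q_zero (a : ℕ) (ha : a ≠ 0) (α β γ : ℝ) : Q ω a α β γ 0 = 0 := by
  unfold Q; simp [ha]

theorem Q_of_neg (a : ℕ) (ha : a ≠ 0) (α β γ : ℝ) {y : ℝ} (hy : y ≤ 0) : Q ω a α β γ y = 0 := by
  unfold Q; rw [max_eq_right hy]; simp [ha]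

theorem Q_hasDerivAt (a : ℕ) (α β γ y : ℝ) :
    HasDerivAt (Q ω (a + 2) α β γ)
      (Q ω (a + 1) ((a + 2) * α - ω * β) ((a + 2) * β + ω * α) ((a + 2) * γ) y) y := by
  rcases lt_trichotomy y 0 with hy | hy | hy
  · rw [Q_of_neg _ _ (by omega) _ _ _ hy.le]
    have : Q ω (a + 2) α β γ =ᶠ[𝓝 y] fun _ => 0 := by
      filter_upwards [Iio_mem_nhds hy] with z hz
      exact Q_of_neg _ _ (by omega) _ _ _ (le_of_lt hz)
    exact (hasDerivAt_const y (0:ℝ)).congr_of_eventuallyEq this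
  · subst hy
    rw [Q_zero _ _ (by omega), hasDerivAt_iff_isLittleO, Q_zero _ _ (by omega)]
    simp only [sub_zero, smul_zero]
    rw [Asymptotics.isLittleO_iff]
    intro c hc
    have hK : 0 < |α| + |β| + |γ| + 1 := by positivity
    have hev : ∀ᶠ z in 𝓝 (0:ℝ), |z| < min 1 (c / (|α| + |β| + |γ| + 1)) := by
      have : Tendsto (fun z : ℝ => |z|) (𝓝 0) (𝓝 0) := by
        have := (continuous_abs (G := ℝ)).tendsto 0
        simpa using this
      exact this.eventually (gt_mem_nhds (by positivity))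
    filter_upwards [hev] with z hz
    have h1 : |z| < 1 := lt_of_lt_of_le hz (min_le_left _ _)
    have h2 : |z| < c / (|α| + |β| + |γ| + 1) := lt_of_lt_of_le hz (min_le_right _ _)
    have h3 := Q_abs_le ω (a + 2) α β γ z
    rw [Real.norm_eq_abs, Real.norm_eq_abs]
    have h4 : |z| ^ (a + 2) ≤ |z| * |z| := by
      have : |z| ^ (a + 2) = |z| ^ a * (|z| * |z|) := by ring
      rw [this]
      exact mul_le_of_le_one_left (by positivity) (pow_le_one₀ (abs_nonneg _) h1.le)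
    have h5 : |z| * (|α| + |β| + |γ|) ≤ c := by
      have := (lt_div_iff₀ hK).1 h2
      nlinarith [abs_nonneg z]
    calc |Q ω (a + 2) α β γ z| ≤ |z| ^ (a + 2) * (|α| + |β| + |γ|) := h3
      _ ≤ (|z| * |z|) * (|α| + |β| + |γ|) := by gcongr
      _ = (|z| * (|α| + |β| + |γ|)) * |z| := by ring
      _ ≤ c * |z| := by gcongr
  · have hev : Q ω (a + 2) α β γ =ᶠ[𝓝 y] fun z => z ^ (a + 2) *
        (α * Real.sin (ω * Real.log z) + β * Real.cos (ω * Real.log z) + γ) := by
      filter_upwards [Ioi_mem_nhds hy] with z hz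
      unfold Q
      rw [max_eq_left (le_of_lt hz)]
    have hl : HasDerivAt (fun z => ω * Real.log z) (ω * y⁻¹) y :=
      (Real.hasDerivAt_log hy.ne').const_mul ω
    have hs := (hl.sin).const_mul α
    have hc := (hl.cos).const_mul β
    have hp := hasDerivAt_pow (a + 2) y
    have := hp.mul ((hs.add hc).add_const γ)
    refine (this.congr_deriv ?_).congr_of_eventuallyEq hev
    unfold Q
    rw [max_eq_left hy.le]
    have e : y ^ (a + 2) = y ^ (a + 1) * y := by ring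
    have e2 : a + 2 - 1 = a + 1 := by omega
    simp only [Pi.add_apply, e2]
    rw [e]
    push_cast
    field_simp
    ring

theorem Q_continuous (a : ℕ) (α β γ : ℝ) : Continuous (Q ω (a + 1) α β γ) := by
  rw [continuous_iff_continuousAt]
  intro y
  rcases eq_or_ne y 0 with hy | hy
  · subst hy
    rw [ContinuousAt, Q_zero _ _ (by omega), tendsto_zero_iff_abs_tendsto_zero]
    refine squeeze_zero (fun _ => abs_nonneg _) (fun z => Q_abs_le ω (a + 1) α β γ z) ?_
    have h1 : Continuous (fun z : ℝ => |z| ^ (a + 1) * (|α| + |β| + |γ|)) := by fun_prop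
    have := h1.tendsto 0
    simpa using this
  · unfold Q
    have h1 : ContinuousAt Real.log y := Real.continuousAt_log hy
    fun_prop (disch := assumption)

theorem Q_contDiff (k : ℕ) : ∀ α β γ : ℝ, ContDiff ℝ k (Q ω (k + 1) α β γ) := by
  induction k with
  | zero =>
    intro α β γ
    exact contDiff_zero.2 (Q_continuous ω 0 α β γ)
  | succ k ih =>
    intro α β γ
    have hd : deriv (Q ω (k + 2) α β γ) =
        Q ω (k + 1) ((k + 2) * α - ω * β) ((k + 2) * β + ω * α) ((k + 2) * γ) :=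
      funext fun y => (Q_hasDerivAt ω k α β γ y).deriv
    push_cast
    rw [contDiff_succ_iff_deriv]
    refine ⟨fun y => (Q_hasDerivAt ω k α β γ y).differentiableAt, fun h => by simp at h, ?_⟩
    change ContDiff ℝ k (deriv (Q ω (k + 2) α β γ))
    rw [hd]
    exact ih _ _ _

/-! ### The two profiles -/

/-- a large constant -/
def KK (N : ℕ) : ℝ := 2 ^ (7 * (N + 3) + 6)

theorem KK_pos (N : ℕ) : 0 < KK N := by unfold KK; positivity

theorem KK_ge (N : ℕ) : 64 ≤ KK N := by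
  unfold KK
  calc (64:ℝ) = 2 ^ 6 := by norm_num
    _ ≤ 2 ^ (7 * (N + 3) + 6) := pow_le_pow_right₀ (by norm_num) (by omega)

theorem KK_eq (N : ℕ) : KK N = 64 * (2 ^ (N + 3) * 64 ^ (N + 3)) := by
  unfold KK
  rw [pow_add, pow_mul, ← mul_pow]
  norm_num
  ring

variable {N : ℕ}

/-- `F N σ u = u^(N+3) (1 + K + σ K sin (log u / K))` for `u ≥ 0` -/
noncomputable def F (N : ℕ) (σ u : ℝ) : ℝ := Q (1 / KK N) (N + 3) (σ * KK N) 0 (KK N + 1) u

theorem F_contDiff (σ : ℝ) : ContDiff ℝ (N + 2 : ℕ) (F N σ) := Q_contDiff _ (N + 2) _ _ _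

theorem F_eq (σ : ℝ) {u : ℝ} (hu : 0 ≤ u) :
    F N σ u = u ^ (N + 3) * (σ * KK N * Real.sin (1 / KK N * Real.log u) + (KK N + 1)) := by
  unfold F Q
  rw [max_eq_left hu]
  ring

theorem F_lower {σ : ℝ} (hσ : |σ| ≤ 1) {u : ℝ} (hu : 0 ≤ u) : u ^ (N + 3) ≤ F N σ u := by
  rw [F_eq σ hu]
  have h1 : |σ * KK N * Real.sin (1 / KK N * Real.log u)| ≤ KK N := by
    rw [abs_mul, abs_mul]
    have h2 : |KK N| = KK N := abs_of_pos (KK_pos N)
    rw [h2]
    have h3 := Real.abs_sin_le_one (1 / KK N * Real.log u)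
    have hK : 0 ≤ KK N := (KK_pos N).le
    calc |σ| * KK N * |Real.sin (1 / KK N * Real.log u)| ≤ 1 * KK N * 1 := by gcongr
      _ = KK N := by ring
  have h4 := (abs_le.1 h1).1
  have h5 : 0 ≤ u ^ (N + 3) := by positivity
  nlinarith

theorem F_mono {σ : ℝ} (hσ : |σ| ≤ 1) : Monotone (F N σ) := by
  set c : ℝ := ((N + 1 : ℕ) : ℝ) + 2 with hc
  have hc1 : 1 ≤ c := by
    rw [hc]
    have : (0:ℝ) ≤ ((N + 1 : ℕ) : ℝ) := Nat.cast_nonneg _
    linarith
  have hd : ∀ u, HasDerivAt (F N σ)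
      (Q (1 / KK N) (N + 2) (c * (σ * KK N)) σ (c * (KK N + 1)) u) u := by
    intro u
    have h := Q_hasDerivAt (1 / KK N) (N + 1) (σ * KK N) 0 (KK N + 1) u
    refine h.congr_deriv ?_
    have hK : KK N ≠ 0 := (KK_pos N).ne'
    congr 1
    · rw [← hc]; ring
    · field_simp
      ring
  refine monotone_of_deriv_nonneg (fun u => (hd u).differentiableAt) fun u => ?_
  rw [(hd u).deriv]
  unfold Q
  refine mul_nonneg (by positivity) ?_
  have hK : 0 ≤ KK N := (KK_pos N).le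
  have h1 : |c * (σ * KK N) * Real.sin (1 / KK N * Real.log u)| ≤ c * KK N := by
    rw [abs_mul, abs_mul, abs_mul, abs_of_nonneg hK]
    have h3 := Real.abs_sin_le_one (1 / KK N * Real.log u)
    have h4 : |c| = c := abs_of_pos (by linarith)
    rw [h4]
    calc c * (|σ| * KK N) * |Real.sin (1 / KK N * Real.log u)| ≤ c * (1 * KK N) * 1 := by gcongr
      _ = c * KK N := by ring
  have h2 : |σ * Real.cos (1 / KK N * Real.log u)| ≤ 1 := by
    rw [abs_mul]
    exact mul_le_one₀ hσ (abs_nonneg _) (Real.abs_cos_le_one _)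
  linarith [(abs_le.1 h1).1, (abs_le.1 h2).1]

theorem F_one (σ : ℝ) : F N σ 1 = KK N + 1 := by
  rw [F_eq σ zero_le_one]
  simp

theorem F_nonneg {σ : ℝ} (hσ : |σ| ≤ 1) {u : ℝ} (hu : 0 ≤ u) : 0 ≤ F N σ u :=
  (by positivity : 0 ≤ u ^ (N + 3)).trans (F_lower hσ hu)

theorem F_half {σ : ℝ} (hσ : |σ| ≤ 1) : KK N / 2 ^ (N + 3) ≤ F N σ (1 / 2) := by
  rw [F_eq σ (by norm_num)]
  have hK : 0 < KK N := KK_pos N
  have h1 : |Real.sin (1 / KK N * Real.log (1 / 2))| ≤ 1 / KK N := by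
    refine (Real.abs_sin_le_abs).trans ?_
    rw [abs_mul, abs_of_pos (by positivity : (0:ℝ) < 1 / KK N)]
    have h2 : |Real.log (1 / 2)| ≤ 1 := by
      rw [one_div, Real.log_inv, abs_neg, abs_of_nonneg (Real.log_nonneg (by norm_num))]
      have := Real.log_two_lt_d9
      linarith
    calc 1 / KK N * |Real.log (1 / 2)| ≤ 1 / KK N * 1 := by gcongr
      _ = 1 / KK N := mul_one _
  have h3 : |σ * KK N * Real.sin (1 / KK N * Real.log (1 / 2))| ≤ 1 := by
    rw [abs_mul, abs_mul, abs_of_pos hK]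
    calc |σ| * KK N * |Real.sin (1 / KK N * Real.log (1 / 2))| ≤ 1 * KK N * (1 / KK N) := by gcongr
      _ = 1 := by field_simp
  have h4 := (abs_le.1 h3).1
  have h5 : ((1:ℝ) / 2) ^ (N + 3) = 1 / 2 ^ (N + 3) := by rw [div_pow, one_pow]
  rw [h5, div_eq_mul_one_div, mul_comm]
  refine mul_le_mul_of_nonneg_left ?_ (by positivity)
  linarith

theorem F_small {σ a : ℝ} (ha : 0 ≤ a) (h : σ * Real.sin (1 / KK N * Real.log a) = -1) :
    F N σ a = a ^ (N + 3) := by
  rw [F_eq σ ha]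
  have : σ * KK N * Real.sin (1 / KK N * Real.log a) = -KK N := by
    linear_combination KK N * h
  rw [this]
  ring

theorem F_large {σ a : ℝ} (hσ : σ ^ 2 = 1) (ha : 0 < a)
    (h : σ * Real.sin (1 / KK N * Real.log a) = -1) :
    (a / 64) ^ (N + 3) * (KK N + 1) ≤ F N (-σ) (a / 64) := by
  rw [F_eq (-σ) (by positivity)]
  have hK : 0 < KK N := KK_pos N
  refine mul_le_mul_of_nonneg_left ?_ (by positivity)
  have hs : Real.sin (1 / KK N * Real.log a) = -σ := by
    linear_combination σ * h - Real.sin (1 / KK N * Real.log a) * hσ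
  have hc : Real.cos (1 / KK N * Real.log a) = 0 := by
    have h2 := Real.sin_sq_add_cos_sq (1 / KK N * Real.log a)
    rw [hs] at h2
    have h3 : Real.cos (1 / KK N * Real.log a) ^ 2 = 0 := by nlinarith
    exact pow_eq_zero_iff (two_ne_zero) |>.1 h3
  rw [Real.log_div ha.ne' (by norm_num), mul_sub, Real.sin_sub, hs, hc]
  have hcos : 0 ≤ Real.cos (1 / KK N * Real.log 64) := by
    have h4 : 0 ≤ 1 / KK N * Real.log 64 := mul_nonneg (by positivity) (Real.log_nonneg (by norm_num))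
    have h5 : 1 / KK N * Real.log 64 ≤ 1 := by
      have h6 : Real.log 64 ≤ 64 := (Real.log_le_sub_one_of_pos (by norm_num)).trans (by norm_num)
      rw [div_mul_eq_mul_div, one_mul, div_le_one hK]
      exact h6.trans (by linarith [KK_ge N])
    apply Real.cos_nonneg_of_neg_pi_div_two_le_of_le
    · linarith [Real.pi_pos]
    · linarith [Real.pi_gt_three]
  have h7 : -σ * KK N * (-σ * Real.cos (1 / KK N * Real.log 64) -
      0 * Real.sin (1 / KK N * Real.log 64)) = KK N * Real.cos (1 / KK N * Real.log 64) := by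
    linear_combination KK N * Real.cos (1 / KK N * Real.log 64) * hσ
  rw [h7]
  nlinarith [mul_nonneg hK.le hcos]

/-! ### The potential -/

/-- the potential -/
noncomputable def VV (N : ℕ) (σ x : ℝ) : ℝ :=
  F N σ (Real.sin (Real.pi * x) ^ 2) * F N (-σ) (Real.cos (Real.pi * x) ^ 2)

theorem VV_contDiff (σ : ℝ) : ContDiff ℝ (N + 2 : ℕ) (VV N σ) := by
  unfold VV
  have h1 : ContDiff ℝ (N + 2 : ℕ) fun x : ℝ => Real.sin (Real.pi * x) ^ 2 :=
    (Real.contDiff_sin.comp (contDiff_const.mul contDiff_id)).pow 2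
  have h2 : ContDiff ℝ (N + 2 : ℕ) fun x : ℝ => Real.cos (Real.pi * x) ^ 2 :=
    (Real.contDiff_cos.comp (contDiff_const.mul contDiff_id)).pow 2
  exact ((F_contDiff σ).comp h1).mul ((F_contDiff (-σ)).comp h2)

theorem VV_nonneg {σ : ℝ} (hσ : |σ| ≤ 1) (x : ℝ) : 0 ≤ VV N σ x :=
  mul_nonneg (F_nonneg hσ (sq_nonneg _)) (F_nonneg (by rwa [abs_neg]) (sq_nonneg _))

theorem VV_even (σ x : ℝ) : VV N σ (-x) = VV N σ x := by
  unfold VV
  rw [mul_neg, Real.sin_neg, Real.cos_neg, neg_sq]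

theorem VV_per (σ x : ℝ) : VV N σ (x + 1) = VV N σ x := by
  unfold VV
  rw [mul_add, mul_one, Real.sin_add_pi, Real.cos_add_pi, neg_sq, neg_sq]

theorem VV_reflect (σ x : ℝ) : VV N σ (1 / 2 - x) = VV N (-σ) x := by
  unfold VV
  have h1 : Real.pi * (1 / 2 - x) = Real.pi / 2 - Real.pi * x := by ring
  rw [h1, Real.sin_pi_div_two_sub, Real.cos_pi_div_two_sub, neg_neg, mul_comm]

theorem VV_le {σ : ℝ} (hσ : |σ| ≤ 1) (x : ℝ) : VV N σ x ≤ (KK N + 1) ^ 2 := by
  have hσ' : |-σ| ≤ 1 := by rwa [abs_neg]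
  have h1 : F N σ (Real.sin (Real.pi * x) ^ 2) ≤ KK N + 1 := by
    rw [← F_one σ]
    exact F_mono hσ (Real.sin_sq_le_one _)
  have h2 : F N (-σ) (Real.cos (Real.pi * x) ^ 2) ≤ KK N + 1 := by
    rw [← F_one (-σ)]
    exact F_mono hσ' (Real.cos_sq_le_one _)
  unfold VV
  rw [sq (KK N + 1)]
  exact mul_le_mul h1 h2 (F_nonneg hσ' (sq_nonneg _)) (by linarith [KK_ge N])

theorem sin_ge {x : ℝ} (h0 : 0 ≤ x) (h1 : x ≤ 1 / 2) : 2 * x ≤ Real.sin (Real.pi * x) := by
  have hπ := Real.pi_pos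
  have h2 := Real.mul_le_sin (x := Real.pi * x) (by positivity) (by nlinarith)
  have h3 : 2 / Real.pi * (Real.pi * x) = 2 * x := by field_simp
  linarith

theorem VV_mid {σ : ℝ} (hσ : |σ| ≤ 1) {x : ℝ} (hx : x ∈ Icc (1 / 8 : ℝ) (3 / 8)) :
    (1 / 16) ^ (N + 3) * (1 / 16) ^ (N + 3) ≤ VV N σ x := by
  have hσ' : |-σ| ≤ 1 := by rwa [abs_neg]
  have h1 := sin_ge (x := x) (by linarith [hx.1]) (by linarith [hx.2])
  have h2 := sin_ge (x := 1 / 2 - x) (by linarith [hx.2]) (by linarith [hx.1])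
  have h3 : Real.pi * (1 / 2 - x) = Real.pi / 2 - Real.pi * x := by ring
  rw [h3, Real.sin_pi_div_two_sub] at h2
  have h4 : 1 / 16 ≤ Real.sin (Real.pi * x) ^ 2 := by nlinarith [hx.1]
  have h5 : 1 / 16 ≤ Real.cos (Real.pi * x) ^ 2 := by nlinarith [hx.2]
  unfold VV
  refine mul_le_mul ?_ ?_ (by positivity) (F_nonneg hσ (sq_nonneg _))
  · exact (F_lower hσ (by norm_num)).trans (F_mono hσ h4)
  · exact (F_lower hσ' (by norm_num)).trans (F_mono hσ' h5)

theorem sin_dbl (x : ℝ) : Real.sin (2 * x) ^ 2 ≤ 4 * Real.sin x ^ 2 := by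
  rw [Real.sin_two_mul]
  have := Real.cos_sq_le_one x
  nlinarith [sq_nonneg (Real.sin x), mul_le_mul_of_nonneg_left this (sq_nonneg (Real.sin x))]

/-- a scale at which the well at `0` is wide and the well at `1/2` is narrow -/
theorem scale {σ a : ℝ} (hσ : σ ^ 2 = 1) (ha : 0 < a) (ha4 : a ≤ 1 / 4)
    (h : σ * Real.sin (1 / KK N * Real.log a) = -1) :
    ∃ r : ℝ, 0 < r ∧ r ≤ 1 / 4 ∧ (∀ t ∈ Icc 0 r, VV N σ t ≤ a ^ (N + 3) * (KK N + 1)) ∧
      ∀ t ∈ Icc (1 / 4) (1 / 2 - r / 8), 20 * (a ^ (N + 3) * (KK N + 1)) ≤ VV N σ t := by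
  have hσ1 : |σ| ≤ 1 := by
    rw [← sq_le_one_iff_abs_le_one, hσ]
  have hσ' : |-σ| ≤ 1 := by rwa [abs_neg]
  have hπ := Real.pi_pos
  have hK : 0 < KK N := KK_pos N
  have hsa : 0 < √a := Real.sqrt_pos.2 ha
  have hsa2 : √a ≤ 1 / 2 := by
    rw [Real.sqrt_le_left (by norm_num)]
    norm_num
    linarith
  set r : ℝ := Real.arcsin (√a) / Real.pi with hr
  have hpr : Real.pi * r = Real.arcsin (√a) := by rw [hr]; field_simp
  have hsin : Real.sin (Real.pi * r) = √a := by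
    rw [hpr, Real.sin_arcsin (by linarith) (by linarith)]
  have hsin2 : Real.sin (Real.pi * r) ^ 2 = a := by rw [hsin, Real.sq_sqrt ha.le]
  have hr0 : 0 < r := div_pos (Real.arcsin_pos.2 hsa) hπ
  have hr2 : r ≤ 1 / 2 := by
    rw [hr, div_le_iff₀ hπ]
    have := Real.arcsin_le_pi_div_two (√a)
    linarith
  have hr4 : r ≤ 1 / 4 := by
    have := sin_ge hr0.le hr2
    rw [hsin] at this
    linarith
  refine ⟨r, hr0, hr4, ?_, ?_⟩
  · intro t ht
    unfold VV
    have h1 : Real.sin (Real.pi * t) ^ 2 ≤ a := by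
      rw [← hsin2]
      have h2 : 0 ≤ Real.sin (Real.pi * t) :=
        Real.sin_nonneg_of_nonneg_of_le_pi (mul_nonneg hπ.le ht.1) (by nlinarith [ht.2])
      refine pow_le_pow_left₀ h2 (Real.sin_le_sin_of_le_of_le_pi_div_two ?_ ?_ ?_) 2
      · nlinarith [ht.1]
      · nlinarith
      · exact mul_le_mul_of_nonneg_left ht.2 hπ.le
    refine mul_le_mul ?_ ?_ (F_nonneg hσ' (sq_nonneg _)) (by positivity)
    · rw [← F_small ha.le h]
      exact F_mono hσ1 h1
    · rw [← F_one (-σ)]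
      exact F_mono hσ' (Real.cos_sq_le_one _)
  · intro t ht
    have hs1 : 1 / 2 ≤ Real.sin (Real.pi * t) ^ 2 := by
      have h2 : Real.sin (Real.pi / 4) ≤ Real.sin (Real.pi * t) := by
        refine Real.sin_le_sin_of_le_of_le_pi_div_two ?_ ?_ ?_
        · linarith
        · nlinarith [ht.2]
        · nlinarith [ht.1]
      rw [Real.sin_pi_div_four] at h2
      have h3 : (√2 / 2) ^ 2 = 1 / 2 := by
        rw [div_pow, Real.sq_sqrt (by norm_num)]
        norm_num
      rw [← h3]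
      exact pow_le_pow_left₀ (by positivity) h2 2
    have hc1 : a / 64 ≤ Real.cos (Real.pi * t) ^ 2 := by
      have h2 : Real.sin (Real.pi * (r / 8)) ≤ Real.cos (Real.pi * t) := by
        rw [← Real.sin_pi_div_two_sub]
        refine Real.sin_le_sin_of_le_of_le_pi_div_two ?_ ?_ ?_
        · nlinarith
        · nlinarith [ht.1]
        · nlinarith [ht.2]
      have h3 : 0 ≤ Real.sin (Real.pi * (r / 8)) :=
        Real.sin_nonneg_of_nonneg_of_le_pi (by positivity) (by nlinarith)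
      have h4 := pow_le_pow_left₀ h3 h2 2
      have h5 := sin_dbl (Real.pi * (r / 8))
      have h6 := sin_dbl (2 * (Real.pi * (r / 8)))
      have h7 := sin_dbl (2 * (2 * (Real.pi * (r / 8))))
      have h8 : 2 * (2 * (2 * (Real.pi * (r / 8)))) = Real.pi * r := by ring
      rw [h8, hsin2] at h7
      linarith
    have h9 : KK N / 2 ^ (N + 3) ≤ F N σ (Real.sin (Real.pi * t) ^ 2) := (F_half hσ1).trans (F_mono hσ1 hs1)
    have h10 : (a / 64) ^ (N + 3) * (KK N + 1) ≤ F N (-σ) (Real.cos (Real.pi * t) ^ 2) :=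
      (F_large hσ ha h).trans (F_mono hσ' hc1)
    unfold VV
    calc 20 * (a ^ (N + 3) * (KK N + 1)) ≤
          KK N / 2 ^ (N + 3) * ((a / 64) ^ (N + 3) * (KK N + 1)) := by
          have h11 : KK N / 2 ^ (N + 3) * ((a / 64) ^ (N + 3) * (KK N + 1)) =
              64 * (a ^ (N + 3) * (KK N + 1)) := by
            have h12 : KK N / 2 ^ (N + 3) = 64 * 64 ^ (N + 3) := by
              nth_rewrite 1 [KK_eq]
              field_simp
            rw [h12, div_pow]
            field_simp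
          rw [h11]
          exact mul_le_mul_of_nonneg_right (by norm_num) (by positivity)
      _ ≤ _ := mul_le_mul h9 h10 (by positivity) (F_nonneg hσ1 (sq_nonneg _))

/-- small admissible values of `a` -/
theorem exists_a {σ : ℝ} (hσ : σ = 1 ∨ σ = -1) {ρ : ℝ} (hρ : 0 < ρ) :
    ∃ a : ℝ, 0 < a ∧ a < ρ ∧ σ * Real.sin (1 / KK N * Real.log a) = -1 := by
  have hK : 0 < KK N := KK_pos N
  have hK1 : 1 ≤ KK N := by linarith [KK_ge N]
  have hπ := Real.pi_gt_three
  obtain ⟨k, hk⟩ := exists_nat_gt (max 1 (-Real.log ρ))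
  have hk1 : (1:ℝ) < k := lt_of_le_of_lt (le_max_left _ _) hk
  have hk2 : -Real.log ρ < k := lt_of_le_of_lt (le_max_right _ _) hk
  refine ⟨Real.exp (-(KK N * (σ * (Real.pi / 2) + k * (2 * Real.pi)))), Real.exp_pos _, ?_, ?_⟩
  · rw [← Real.exp_log hρ]
    apply Real.exp_lt_exp.2
    have h1 : (k:ℝ) ≤ σ * (Real.pi / 2) + k * (2 * Real.pi) := by
      rcases hσ with rfl | rfl <;> nlinarith
    have h2 : σ * (Real.pi / 2) + k * (2 * Real.pi) ≤
        KK N * (σ * (Real.pi / 2) + k * (2 * Real.pi)) :=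
      le_mul_of_one_le_left (by linarith) hK1
    linarith
  · rw [Real.log_exp]
    have h1 : 1 / KK N * -(KK N * (σ * (Real.pi / 2) + k * (2 * Real.pi))) =
        -(σ * (Real.pi / 2) + k * (2 * Real.pi)) := by
      field_simp
    rw [h1, Real.sin_neg, Real.sin_add_nat_mul_two_pi]
    rcases hσ with rfl | rfl
    · simp
    · simp

end Pool.Agent.Y317.VM
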