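import Pool.Agent.Y317.VM.Key
import Pool.Agent.Y317.VM.Pot

/-!
One-dimensional solutions of the viscous cell problem for the potential `VV N 1`, and their
oscillation as `ε → 0`.
-/

set_option autoImplicit false

open Set Filter Topology

namespace Pool.Agent.Y317.VM

/-- the bound of the slopes -/
def MM (N : ℕ) : ℝ := (KK N + 1) ^ 2 + 2

/-- the lower bound of the potential in the middle -/
noncomputable def mm (N : ℕ) : ℝ := (1 / 16) ^ (N + 3) * (1 / 16) ^ (N + 3)

variable {N : ℕ}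

theorem MM_pos : 0 < MM N := by unfold MM; positivity

theorem mm_pos : 0 < mm N := by unfold mm; positivity

/-- the size of the oscillation -/
noncomputable def κ (N : ℕ) : ℝ := mm N / (8 * MM N)

theorem κ_pos : 0 < κ N := div_pos mm_pos (by have := MM_pos (N := N); positivity)

/-- `v` is a solution for the potential `V` with the slope `w` and the constant `E` -/
structure Sol (N : ℕ) (V : ℝ → ℝ) (ε E : ℝ) (w v : ℝ → ℝ) : Prop where
  w0 : w 0 = 0
  w1 : w (1 / 2) = 0
  bd : ∀ t, |w t| ≤ MM N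
  ode : ∀ t, HasDerivAt w ((w t ^ 2 - V t + E) / ε) t
  prim : ∀ t, HasDerivAt v (w t) t

theorem low {σ : ℝ} (hσ : σ = 1 ∨ σ = -1) {δ : ℝ} (hδ : 0 < δ) :
    ∃ ε ∈ Ioo 0 δ, ∀ (E : ℝ) (w v : ℝ → ℝ), Sol N (VV N σ) ε E w v →
      κ N ≤ v (3 / 8) - v (1 / 8) := by
  have hσ2 : σ ^ 2 = 1 := by rcases hσ with rfl | rfl <;> norm_num
  have hσ1 : |σ| ≤ 1 := by rcases hσ with rfl | rfl <;> norm_num
  have hK : 0 < KK N := KK_pos N
  have hM := MM_pos (N := N)
  have hm := mm_pos (N := N)
  set τ : ℝ := min (δ / 2) (mm N / (32 * MM N)) with hτ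
  have hτ0 : 0 < τ := lt_min (by positivity) (by positivity)
  set ρ : ℝ := min (1 / 4) (min (τ ^ 2) (mm N / 20) / (KK N + 1)) with hρ
  have hρ0 : 0 < ρ := lt_min (by norm_num) (div_pos (lt_min (by positivity) (by positivity))
    (by positivity))
  obtain ⟨a, ha0, haρ, ha⟩ := exists_a hσ hρ0
  have ha4 : a ≤ 1 / 4 := haρ.le.trans (min_le_left _ _)
  obtain ⟨r, hr0, hr4, h1, h2⟩ := scale hσ2 ha0 ha4 ha
  set η : ℝ := a ^ (N + 3) * (KK N + 1) with hη
  have hη0 : 0 < η := by positivity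
  have hη1 : η < min (τ ^ 2) (mm N / 20) := by
    have h3 : a < min (τ ^ 2) (mm N / 20) / (KK N + 1) := lt_of_lt_of_le haρ (min_le_right _ _)
    rw [lt_div_iff₀ (by positivity)] at h3
    have h4 : a ^ (N + 3) ≤ a := pow_le_of_le_one ha0.le (by linarith) (by omega)
    refine lt_of_le_of_lt (mul_le_mul_of_nonneg_right h4 (by positivity)) h3
  have hητ : η < τ ^ 2 := lt_of_lt_of_le hη1 (min_le_left _ _)
  have hηm : η < mm N / 20 := lt_of_lt_of_le hη1 (min_le_right _ _)
  have hsη : √η < τ := by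
    rw [Real.sqrt_lt' hτ0]
    exact hητ
  have hsη0 : 0 < √η := Real.sqrt_pos.2 hη0
  have hε0 : 0 < r * √η := mul_pos hr0 hsη0
  have hετ : r * √η < τ := by nlinarith
  refine ⟨r * √η, ⟨hε0, ?_⟩, ?_⟩
  · have := min_le_left (δ / 2) (mm N / (32 * MM N))
    rw [← hτ] at this
    linarith
  · intro E w v hs
    have h3 := growth (m := mm N) hr0 hr4 hη0 hε0 (by rw [mul_pow, Real.sq_sqrt hη0.le])
      hs.ode hs.w0 hs.w1 hs.bd (VV_nonneg hσ1) h1 h2 (fun t ht => VV_mid hσ1 ht) (by linarith)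
      hs.prim
    have h4 : 2 * MM N * (r * √η) ≤ mm N / 16 := by
      have h5 : r * √η ≤ mm N / (32 * MM N) := hετ.le.trans (min_le_right _ _)
      calc 2 * MM N * (r * √η) ≤ 2 * MM N * (mm N / (32 * MM N)) :=
            mul_le_mul_of_nonneg_left h5 (by positivity)
        _ = mm N / 16 := by field_simp; norm_num
    unfold κ
    rw [div_le_iff₀ (by positivity)]
    nlinarith

theorem high {δ : ℝ} (hδ : 0 < δ) :
    ∃ ε ∈ Ioo 0 δ, ∀ (E : ℝ) (w v : ℝ → ℝ), Sol N (VV N 1) ε E w v →
      v (3 / 8) - v (1 / 8) ≤ -κ N := by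
  obtain ⟨ε, hε, h⟩ := low (σ := -1) (Or.inr rfl) hδ
  refine ⟨ε, hε, fun E w v hs => ?_⟩
  have h1 := h E (fun t => -(w (1 / 2 - t))) (fun t => v (1 / 2 - t))
    { w0 := by
        change -(w (1 / 2 - 0)) = 0
        rw [sub_zero, hs.w1, neg_zero]
      w1 := by
        change -(w (1 / 2 - 1 / 2)) = 0
        rw [sub_self, hs.w0, neg_zero]
      bd := fun t => by
        change |-(w (1 / 2 - t))| ≤ MM N
        rw [abs_neg]
        exact hs.bd _
      ode := fun t => by
        have h2 := ((hs.ode (1 / 2 - t)).comp_const_sub (1 / 2) t).fun_neg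
        refine h2.congr_deriv ?_
        rw [VV_reflect]
        ring
      prim := fun t => (hs.prim (1 / 2 - t)).comp_const_sub (1 / 2) t }
  have e1 : (1 / 2 - 3 / 8 : ℝ) = 1 / 8 := by norm_num
  have e2 : (1 / 2 - 1 / 8 : ℝ) = 3 / 8 := by norm_num
  simp only [e1, e2] at h1
  linarith

theorem one_abs : |(1:ℝ)| ≤ 1 := by norm_num

/-- existence of a one-dimensional solution -/
theorem exists_Sol {ε : ℝ} (hε : 0 < ε) : ∃ (E : ℝ) (w v : ℝ → ℝ), Sol N (VV N 1) ε E w v ∧
    v 0 = 0 ∧ Function.Periodic v 1 ∧ ContDiff ℝ 2 v := by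
  obtain ⟨E, w, w0, w1, hodd, hper, hbd, hode⟩ := exists_riccati hε (VV_contDiff (N := N) 1).continuous
    (VV_nonneg one_abs) (VV_le (N := N) one_abs) (VV_even 1) (VV_per 1)
  have hwc : Continuous w := continuous_iff_continuousAt.2 fun t => (hode t).continuousAt
  set v : ℝ → ℝ := fun x => ∫ t in (0:ℝ)..x, w t with hv
  have hprim : ∀ t, HasDerivAt v (w t) t := fun t =>
    intervalIntegral.integral_hasDerivAt_right (hwc.intervalIntegrable _ _)
      (hwc.stronglyMeasurableAtFilter _ _) hwc.continuousAt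
  have hv0 : v 0 = 0 := by simp [hv]
  have heven : ∀ x, v (-x) = v x := by
    have h1 : ∀ x, HasDerivAt (fun x => v (-x) - v x) 0 x := by
      intro x
      have h2 : HasDerivAt (fun t => v (-t)) (w (-x) * -1) x :=
        (hprim (-x)).comp x (hasDerivAt_neg x)
      refine (h2.fun_sub (hprim x)).congr_deriv ?_
      rw [hodd]
      ring
    intro x
    have h3 := is_const_of_deriv_eq_zero (fun x => (h1 x).differentiableAt)
      (fun x => (h1 x).deriv) x 0
    simp only [neg_zero, sub_self] at h3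
    linarith
  have hperv : Function.Periodic v 1 := by
    have h1 : ∀ x, HasDerivAt (fun x => v (x + 1) - v x) 0 x := by
      intro x
      refine (((hprim (x + 1)).comp_add_const x 1).fun_sub (hprim x)).congr_deriv ?_
      rw [hper]
      ring
    intro x
    have h3 := is_const_of_deriv_eq_zero (fun x => (h1 x).differentiableAt)
      (fun x => (h1 x).deriv) x (-(1 / 2))
    have e1 : (-(1 / 2) + 1 : ℝ) = 1 / 2 := by norm_num
    simp only [e1, heven (1 / 2), sub_self] at h3
    linarith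
  refine ⟨E, w, v, ⟨w0, w1, hbd, hode, hprim⟩, hv0, hperv, ?_⟩
  have hd1 : deriv v = w := funext fun t => (hprim t).deriv
  have hd2 : deriv w = fun t => (w t ^ 2 - VV N 1 t + E) / ε := funext fun t => (hode t).deriv
  have e : (2 : WithTop ℕ∞) = 1 + 1 := by norm_num
  rw [e, contDiff_succ_iff_deriv]
  refine ⟨fun t => (hprim t).differentiableAt, fun h => by simp at h, ?_⟩
  rw [hd1, contDiff_one_iff_deriv]
  refine ⟨fun t => (hode t).differentiableAt, ?_⟩
  rw [hd2]
  exact (((hwc.pow 2).sub (VV_contDiff (N := N) 1).continuous).add continuous_const).div_const _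

end Pool.Agent.Y317.VM
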