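import Pool.Agent.Y317.VM.Ode

/-!
The solution of the Riccati equation at a scale at which the potential well at `0` is wider than
the well at `1/2`: it is nonnegative in the middle of the interval `[0, 1/2]`.
-/

set_option autoImplicit false

open Set Filter Topology

namespace Pool.Agent.Y317.VM

theorem mono_of {f f' : ℝ → ℝ} {a b : ℝ} (hab : a ≤ b) (hf : ∀ t ∈ Icc a b, HasDerivAt f (f' t) t)
    (h : ∀ t ∈ Icc a b, 0 ≤ f' t) : f a ≤ f b := by
  have := monotoneOn_of_deriv_nonneg (convex_Icc a b)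
    (fun t ht => (hf t ht).continuousAt.continuousWithinAt)
    (fun t ht => (hf t (interior_subset ht)).differentiableAt.differentiableWithinAt)
    (fun t ht => by rw [(hf t (interior_subset ht)).deriv]; exact h t (interior_subset ht))
  exact this ⟨le_rfl, hab⟩ ⟨hab, le_rfl⟩ hab

variable {V w : ℝ → ℝ} {E ε η r : ℝ}

/-- The constant is small because the well at `0` is wide. -/
theorem const_small (hr : 0 < r) (hη : 0 < η) (hε : 0 < ε)
    (hεη : ε ^ 2 = r ^ 2 * η) (hw : ∀ t, HasDerivAt w ((w t ^ 2 - V t + E) / ε) t) (hw0 : w 0 = 0)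
    (h1 : ∀ t ∈ Icc 0 r, V t ≤ η) : E ≤ 5 * η := by
  by_contra hcon
  push Not at hcon
  have hkey : η * r / ε = ε / r := by
    rw [div_eq_div_iff hε.ne' hr.ne']
    nlinarith
  -- linear growth
  have ha : 2 * (ε / r) ≤ w (r / 2) := by
    have h2 := mono_of (f := fun t => w t - 4 * η / ε * t) (a := 0) (b := r / 2) (by linarith)
      (fun t _ => (hw t).sub ((hasDerivAt_id t).const_mul (4 * η / ε)))
      (fun t ht => by
        have h3 := h1 t ⟨ht.1, by linarith [ht.2]⟩
        rw [mul_one, ← sub_div]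
        exact div_nonneg (by nlinarith [sq_nonneg (w t)]) hε.le)
    simp only [hw0] at h2
    have h4 : 4 * η / ε * (r / 2) = 2 * (ε / r) := by
      rw [← hkey]
      ring
    linarith
  have hpos : 0 < 2 * (ε / r) := by positivity
  have hge : ∀ t ∈ Icc (r / 2) r, 0 < w t := by
    intro t ht
    have h2 := mono_of (f := w) (a := r / 2) (b := t) ht.1 (fun s _ => hw s)
      (fun s hs => by
        have h3 := h1 s ⟨by linarith [hs.1], by linarith [hs.2, ht.2]⟩
        exact div_nonneg (by nlinarith [sq_nonneg (w s)]) hε.le)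
    linarith
  have hb := mono_of (f := fun t => -(w t)⁻¹ - t / ε) (a := r / 2) (b := r) (by linarith)
    (f' := fun t => -(-((w t ^ 2 - V t + E) / ε) / (w t) ^ 2) - 1 / ε)
    (fun t ht => ((hw t).inv (hge t ht).ne').neg.sub ((hasDerivAt_id t).div_const ε))
    (fun t ht => by
      have h3 := h1 t ⟨by linarith [ht.1], ht.2⟩
      have h4 := hge t ht
      have h5 : -(-((w t ^ 2 - V t + E) / ε) / (w t) ^ 2) - 1 / ε =
          (E - V t) / (ε * (w t) ^ 2) := by
        field_simp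
        ring
      rw [h5]
      exact div_nonneg (by linarith) (by positivity))
  have h6 : 0 < (w r)⁻¹ := inv_pos.2 (hge r ⟨by linarith, le_rfl⟩)
  have h7 : (w (r / 2))⁻¹ ≤ (2 * (ε / r))⁻¹ := inv_anti₀ hpos ha
  have h8 : (2 * (ε / r))⁻¹ = r / 2 / ε := by
    field_simp
  have h9 : r / ε = r / 2 / ε + r / 2 / ε := by ring
  linarith

/-- The solution is nonnegative in the middle because the well at `1/2` is narrow. -/
theorem nonneg_mid (hr : 0 < r) (hr4 : r ≤ 1 / 4) (hη : 0 < η) (hε : 0 < ε)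
    (hεη : ε ^ 2 = r ^ 2 * η) (hw : ∀ t, HasDerivAt w ((w t ^ 2 - V t + E) / ε) t)
    (hw1 : w (1 / 2) = 0) (hV0 : ∀ t, 0 ≤ V t) (hE : E ≤ 5 * η)
    (h2 : ∀ t ∈ Icc (1 / 4) (1 / 2 - r / 8), 20 * η ≤ V t)
    (h3 : ∀ t ∈ Icc (1 / 8) (1 / 4), 5 * η < V t) :
    ∀ t ∈ Icc (1 / 8 : ℝ) (3 / 8), 0 ≤ w t := by
  have hkey : (η * r / ε) ^ 2 = η := by
    rw [div_pow, mul_pow, hεη]
    field_simp
  have hy : ∀ t, HasDerivAt (fun t => -(w (1 / 2 - t)))
      (((-(w (1 / 2 - t))) ^ 2 - V (1 / 2 - t) + E) / ε) t := by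
    intro t
    have h4 := ((hw (1 / 2 - t)).comp_const_sub (1 / 2) t).fun_neg
    refine h4.congr_deriv ?_
    ring
  -- first step
  have hA := barrier hy (a := 0) (b := r / 8) (p := 0) (c := 8 * η / ε)
    (by rw [sub_zero, hw1, neg_zero]) (fun t ht hyt => by
      rw [hyt, div_lt_div_iff_of_pos_right hε]
      have h5 : 0 ≤ 0 + 8 * η / ε * (t - 0) := by
        have : 0 ≤ 8 * η / ε := by positivity
        have := mul_nonneg this (by linarith [ht.1] : 0 ≤ t - 0)
        linarith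
      have h6 : 0 + 8 * η / ε * (t - 0) ≤ η * r / ε := by
        have h7 : 8 * η / ε * (t - 0) ≤ 8 * η / ε * (r / 8) :=
          mul_le_mul_of_nonneg_left (by linarith [ht.2]) (by positivity)
        have h8 : 8 * η / ε * (r / 8) = η * r / ε := by ring
        linarith
      have h9 : (0 + 8 * η / ε * (t - 0)) ^ 2 ≤ η := by
        calc _ ≤ (η * r / ε) ^ 2 := pow_le_pow_left₀ h5 h6 2
          _ = η := hkey
      linarith [hV0 (1 / 2 - t)]) (r / 8) ⟨by linarith, le_rfl⟩
  have hA' : -(w (1 / 2 - r / 8)) ≤ η * r / ε := by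
    have h8 : 8 * η / ε * (r / 8) = η * r / ε := by ring
    simp only [sub_zero] at hA
    linarith
  -- second step
  have hB := barrier hy (a := r / 8) (b := r / 8 + r / 10) (p := η * r / ε) (c := -(10 * η / ε))
    hA' (fun t ht hyt => by
      rw [hyt]
      have hc : 0 ≤ 10 * η / ε := by positivity
      have h4 : 0 ≤ t - r / 8 := by linarith [ht.1]
      have h5 : 0 ≤ η * r / ε + -(10 * η / ε) * (t - r / 8) := by
        have h7 : 10 * η / ε * (t - r / 8) ≤ 10 * η / ε * (r / 10) :=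
          mul_le_mul_of_nonneg_left (by linarith [ht.2]) hc
        have h8 : 10 * η / ε * (r / 10) = η * r / ε := by ring
        linarith
      have h6 : η * r / ε + -(10 * η / ε) * (t - r / 8) ≤ η * r / ε := by
        have := mul_nonneg hc h4
        linarith
      have h9 : (η * r / ε + -(10 * η / ε) * (t - r / 8)) ^ 2 ≤ η := by
        calc _ ≤ (η * r / ε) ^ 2 := pow_le_pow_left₀ h5 h6 2
          _ = η := hkey
      have h10 := h2 (1 / 2 - t) ⟨by linarith [ht.2], by linarith [ht.1]⟩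
      have h11 := div_lt_div_of_pos_right (by linarith :
        (η * r / ε + -(10 * η / ε) * (t - r / 8)) ^ 2 - V (1 / 2 - t) + E < -(10 * η)) hε
      rwa [neg_div] at h11) (r / 8 + r / 10) ⟨by linarith, le_rfl⟩
  have hB' : 0 ≤ w (1 / 2 - (r / 8 + r / 10)) := by
    have h8 : 10 * η / ε * (r / 10) = η * r / ε := by ring
    have h9 : r / 8 + r / 10 - r / 8 = r / 10 := by ring
    simp only [h9] at hB
    linarith
  -- backwards
  intro t ht
  have hC := barrier_back (w := fun t => -(w t)) (a := 1 / 8) (b := 1 / 2 - (r / 8 + r / 10))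
    (p := 0) (fun t => (hw t).fun_neg) (by linarith) (fun s hs hs0 => by
      have hws : w s = 0 := by linarith
      have h4 : 5 * η < V s := by
        rcases le_total s (1 / 4) with h | h
        · exact h3 s ⟨hs.1.le, h⟩
        · have := h2 s ⟨h, by linarith [hs.2]⟩
          linarith
      rw [hws]
      have : 0 < (V s - E) / ε := div_pos (by linarith) hε
      have h5 : -((0 ^ 2 - V s + E) / ε) = (V s - E) / ε := by ring
      rw [h5]
      exact this) t ⟨ht.1, by linarith [ht.2]⟩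
  linarith

/-- growth of the primitive -/
theorem growth {v : ℝ → ℝ} {M m : ℝ} (hr : 0 < r) (hr4 : r ≤ 1 / 4) (hη : 0 < η) (hε : 0 < ε)
    (hεη : ε ^ 2 = r ^ 2 * η) (hw : ∀ t, HasDerivAt w ((w t ^ 2 - V t + E) / ε) t) (hw0 : w 0 = 0)
    (hw1 : w (1 / 2) = 0) (hM : ∀ t, |w t| ≤ M) (hV0 : ∀ t, 0 ≤ V t)
    (h1 : ∀ t ∈ Icc 0 r, V t ≤ η)
    (h2 : ∀ t ∈ Icc (1 / 4) (1 / 2 - r / 8), 20 * η ≤ V t)
    (h3 : ∀ t ∈ Icc (1 / 8 : ℝ) (3 / 8), m ≤ V t) (hm : 5 * η < m)
    (hv : ∀ t, HasDerivAt v (w t) t) :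
    (m - 5 * η) / 4 - 2 * M * ε ≤ M * (v (3 / 8) - v (1 / 8)) := by
  have hE := const_small hr hη hε hεη hw hw0 h1
  have hnn := nonneg_mid hr hr4 hη hε hεη hw hw1 hV0 hE h2
    (fun t ht => lt_of_lt_of_le hm (h3 t ⟨ht.1, by linarith [ht.2]⟩))
  have hmono := mono_of (f := fun t => M * v t - ε * w t - (m - 5 * η) * t)
    (f' := fun t => M * w t - ε * ((w t ^ 2 - V t + E) / ε) - (m - 5 * η) * 1)
    (a := 1 / 8) (b := 3 / 8) (by norm_num)
    (fun t _ => (((hv t).const_mul M).sub ((hw t).const_mul ε)).sub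
      ((hasDerivAt_id t).const_mul (m - 5 * η)))
    (fun t ht => by
      rw [mul_div_cancel₀ _ hε.ne']
      have h4 := hnn t ht
      have h5 := (abs_le.1 (hM t)).2
      have h6 := h3 t ht
      nlinarith [mul_nonneg h4 (by linarith : 0 ≤ M - w t)])
  have h7 := (abs_le.1 (hM (3 / 8))).1
  have h8 := (abs_le.1 (hM (1 / 8))).2
  nlinarith [mul_le_mul_of_nonneg_left h7 hε.le, mul_le_mul_of_nonneg_left h8 hε.le]

end Pool.Agent.Y317.VM
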