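import Pool.Agent.Y317.VM.Cont

/-!
Every value in `[-κ, κ]` is attained by the oscillation for arbitrarily small `ε`, and compactness.
-/

set_option autoImplicit false

open Set Filter Topology

namespace Pool.Agent.Y317.VM

/-- a one-dimensional family of solutions -/
structure Fam (N : ℕ) (E : ℝ → ℝ) (w v : ℝ → ℝ → ℝ) : Prop where
  sol : ∀ ε, 0 < ε → Sol N (VV N 1) ε (E ε) (w ε) (v ε)
  zero : ∀ ε, 0 < ε → v ε 0 = 0
  per : ∀ ε, 0 < ε → Function.Periodic (v ε) 1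
  smooth : ∀ ε, 0 < ε → ContDiff ℝ 2 (v ε)

theorem exists_Fam (N : ℕ) : ∃ (E : ℝ → ℝ) (w v : ℝ → ℝ → ℝ), Fam N E w v := by
  have h : ∀ ε : ℝ, ∃ (E : ℝ) (w v : ℝ → ℝ), 0 < ε → Sol N (VV N 1) ε E w v ∧
      v 0 = 0 ∧ Function.Periodic v 1 ∧ ContDiff ℝ 2 v := by
    intro ε
    by_cases hε : 0 < ε
    · obtain ⟨E, w, v, h⟩ := exists_Sol hε
      exact ⟨E, w, v, fun _ => h⟩
    · exact ⟨0, 0, 0, fun h => absurd h hε⟩
  choose E w v h using h
  exact ⟨E, w, v, fun ε hε => (h ε hε).1, fun ε hε => (h ε hε).2.1, fun ε hε => (h ε hε).2.2.1,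
    fun ε hε => (h ε hε).2.2.2⟩

variable {N : ℕ} {E : ℝ → ℝ} {w v : ℝ → ℝ → ℝ}

/-- all intermediate values are attained -/
theorem Fam.attain (h : Fam N E w v) {l : ℝ} (hl : l ∈ Icc (-κ N) (κ N)) {δ : ℝ} (hδ : 0 < δ) :
    ∃ ε ∈ Ioo 0 δ, v ε (3 / 8) - v ε (1 / 8) = l := by
  obtain ⟨ε₁, h1, h1'⟩ := low (N := N) (σ := 1) (Or.inl rfl) hδ
  obtain ⟨ε₂, h2, h2'⟩ := high (N := N) hδ
  have a1 := h1' _ _ _ (h.sol ε₁ h1.1)
  have a2 := h2' _ _ _ (h.sol ε₂ h2.1)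
  have hVabs : ∀ t, |VV N 1 t| ≤ (KK N + 1) ^ 2 := fun t => by
    rw [abs_of_nonneg (VV_nonneg one_abs t)]
    exact VV_le one_abs t
  have hsub : uIcc ε₂ ε₁ ⊆ Ioo 0 δ := (ordConnected_Ioo).uIcc_subset h2 h1
  have hc : ContinuousOn (fun ε => v ε (3 / 8) - v ε (1 / 8)) (uIcc ε₂ ε₁) := fun ε hε =>
    ContinuousAt.continuousWithinAt
      (tendsto_osc (VV_contDiff (N := N) 1).continuous hVabs h.sol (hsub hε).1)
  have hmem : l ∈ uIcc (v ε₂ (3 / 8) - v ε₂ (1 / 8)) (v ε₁ (3 / 8) - v ε₁ (1 / 8)) :=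
    Icc_subset_uIcc ⟨a2.trans hl.1, hl.2.trans a1⟩
  obtain ⟨ε, hε, hε2⟩ := intermediate_value_uIcc hc hmem
  exact ⟨ε, hsub hε, hε2⟩

theorem Fam.lip (h : Fam N E w v) {ε : ℝ} (hε : 0 < ε) : LipschitzWith (MM N).toNNReal (v ε) := by
  refine lipschitzWith_of_nnnorm_deriv_le
    (fun t => ((h.sol ε hε).prim t).differentiableAt) fun t => ?_
  rw [((h.sol ε hε).prim t).deriv, ← NNReal.coe_le_coe, Real.coe_toNNReal _ MM_pos.le,
    coe_nnnorm, Real.norm_eq_abs]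
  exact (h.sol ε hε).bd t

/-- compactness -/
theorem Fam.subseq (h : Fam N E w v) {e : ℕ → ℝ} (he : ∀ k, 0 < e k) :
    ∃ (φ : ℕ → ℕ) (u : ℝ → ℝ), StrictMono φ ∧
      TendstoUniformly (fun k => v (e (φ k))) u atTop := by
  set f : ℕ → BoundedContinuousFunction (Icc (0:ℝ) 1) ℝ := fun k =>
    BoundedContinuousFunction.mkOfCompact
      ⟨fun x => v (e k) x, (h.lip (he k)).continuous.comp continuous_subtype_val⟩ with hf
  set A : Set (BoundedContinuousFunction (Icc (0:ℝ) 1) ℝ) :=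
    {g | (∀ x, g x ∈ Icc (-MM N) (MM N)) ∧ LipschitzWith (MM N).toNNReal g} with hA
  have hcomp : IsCompact (closure A) := by
    refine BoundedContinuousFunction.arzela_ascoli (Icc (-MM N) (MM N)) isCompact_Icc A
      (fun g x hg => hg.1 x) ?_
    exact (LipschitzWith.uniformEquicontinuous _ (MM N).toNNReal fun g => g.2.2).equicontinuous
  have hfA : ∀ k, f k ∈ closure A := by
    intro k
    refine subset_closure ⟨fun x => ?_, fun x y => ?_⟩
    · change v (e k) x ∈ Icc (-MM N) (MM N)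
      have h1 := (h.lip (he k)).dist_le_mul (x : ℝ) 0
      rw [h.zero _ (he k), Real.coe_toNNReal _ MM_pos.le, Real.dist_eq, Real.dist_eq, sub_zero,
        sub_zero, abs_of_nonneg x.2.1] at h1
      have h2 : MM N * (x : ℝ) ≤ MM N := mul_le_of_le_one_right MM_pos.le x.2.2
      exact abs_le.1 (h1.trans h2)
    · exact (h.lip (he k)) (x : ℝ) (y : ℝ)
  obtain ⟨g, -, φ, hφ, hlim⟩ := hcomp.tendsto_subseq hfA
  refine ⟨φ, fun x => g ⟨Int.fract x, Int.fract_nonneg x, (Int.fract_lt_one x).le⟩, hφ, ?_⟩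
  rw [Metric.tendstoUniformly_iff]
  intro δ hδ
  have h3 := (Metric.tendsto_atTop.1 hlim) δ hδ
  obtain ⟨N, hN⟩ := h3
  filter_upwards [eventually_ge_atTop N] with k hk
  intro x
  have h4 := hN k hk
  have h5 : v (e (φ k)) x = f (φ k) ⟨Int.fract x, Int.fract_nonneg x, (Int.fract_lt_one x).le⟩ := by
    change v (e (φ k)) x = v (e (φ k)) (Int.fract x)
    have h6 := ((h.per _ (he (φ k))).int_mul ⌊x⌋) (Int.fract x)
    rw [mul_one, Int.fract_add_floor] at h6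
    exact h6
  rw [h5]
  refine lt_of_le_of_lt (BoundedContinuousFunction.dist_coe_le_dist _) ?_
  rw [dist_comm]
  exact h4

end Pool.Agent.Y317.VM
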