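import Mathlib

/-!
Scalar Riccati equations `ε w' = w² - V + E` with an even, periodic, nonnegative potential `V`:
existence of a constant `E` and of an odd periodic solution `w`.
-/

set_option autoImplicit false

open Set Filter Topology

namespace Pool.Agent.Y317.VM

/-! ### Global solutions of bounded Lipschitz equations -/

theorem sol_Ioo {f : ℝ → ℝ → ℝ} {K L : NNReal} (hK : ∀ t, LipschitzWith K (f t))
    (hc : ∀ x, Continuous fun t => f t x) (hL : ∀ t x, ‖f t x‖ ≤ L) (x : ℝ) (n : ℕ) :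
    ∃ γ : ℝ → ℝ, γ 0 = x ∧ ∀ t ∈ Ioo (-((n:ℝ) + 1)) ((n:ℝ) + 1), HasDerivAt γ (f t (γ t)) t := by
  have h0 : (0:ℝ) ∈ Icc (-((n:ℝ) + 1)) ((n:ℝ) + 1) := ⟨by linarith [n.cast_nonneg (α := ℝ)],
    by positivity⟩
  have hpl : IsPicardLindelof f (⟨0, h0⟩ : Icc (-((n:ℝ) + 1)) ((n:ℝ) + 1)) x
      (L * (n + 1)) 0 L K := by
    refine ⟨fun t _ => (hK t).lipschitzOnWith, fun y _ => (hc y).continuousOn,
      fun t _ y _ => hL t y, ?_⟩
    simp
  obtain ⟨γ, h1, h2⟩ := hpl.exists_eq_forall_mem_Icc_hasDerivWithinAt₀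
  exact ⟨γ, h1, fun t ht => (h2 t (Ioo_subset_Icc_self ht)).hasDerivAt (Icc_mem_nhds ht.1 ht.2)⟩

theorem exists_sol {f : ℝ → ℝ → ℝ} {K L : NNReal} (hK : ∀ t, LipschitzWith K (f t))
    (hc : ∀ x, Continuous fun t => f t x) (hL : ∀ t x, ‖f t x‖ ≤ L) (x : ℝ) :
    ∃ γ : ℝ → ℝ, γ 0 = x ∧ ∀ t, HasDerivAt γ (f t (γ t)) t := by
  choose γ h0 h1 using sol_Ioo hK hc hL x
  have hun : ∀ n k : ℕ, n ≤ k → EqOn (γ n) (γ k) (Ioo (-((n:ℝ) + 1)) ((n:ℝ) + 1)) := by
    intro n k hnk
    have hnk' : (n:ℝ) ≤ k := by exact_mod_cast hnk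
    have hn : (0:ℝ) ≤ n := n.cast_nonneg
    refine ODE_solution_unique_of_mem_Ioo (v := f) (s := fun _ => univ) (K := K) (t₀ := 0)
      (fun t _ => (hK t).lipschitzOnWith) ⟨by linarith, by linarith⟩
      (fun t ht => ⟨h1 n t ht, trivial⟩) (fun t ht => ⟨h1 k t ⟨?_, ?_⟩, trivial⟩) ?_
    · linarith [ht.1]
    · linarith [ht.2]
    · rw [h0, h0]
  refine ⟨fun t => γ ⌈|t|⌉₊ t, ?_, ?_⟩
  · simp only; rw [h0]
  · intro t
    set N : ℕ := ⌈|t|⌉₊ + 1 with hN
    have hval : ∀ s : ℝ, |s| < |t| + 1 → γ ⌈|s|⌉₊ s = γ N s := by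
      intro s hs
      have h2 : ⌈|s|⌉₊ ≤ N := by
        have h3 : |s| ≤ ((⌈|t|⌉₊ + 1 : ℕ) : ℝ) := by
          push_cast
          linarith [Nat.le_ceil |t|]
        exact Nat.ceil_le.2 h3
      refine hun _ _ h2 ?_
      have h3 := Nat.le_ceil |s|
      exact abs_lt.1 (by linarith : |s| < (⌈|s|⌉₊:ℝ) + 1)
    have h3 : HasDerivAt (γ N) (f t (γ N t)) t := by
      apply h1
      have h4 := Nat.le_ceil |t|
      refine abs_lt.1 ?_
      rw [hN]; push_cast
      linarith
    have h4 : (fun s => γ ⌈|s|⌉₊ s) =ᶠ[𝓝 t] γ N := by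
      have : ∀ᶠ s in 𝓝 t, |s| < |t| + 1 :=
        (continuous_abs.tendsto t).eventually (gt_mem_nhds (by linarith))
      exact this.mono hval
    change HasDerivAt _ (f t (γ ⌈|t|⌉₊ t)) t
    rw [hval t (by linarith)]
    exact h3.congr_of_eventuallyEq h4

/-! ### Barriers -/

/-- upper barrier with a linear function -/
theorem barrier {w w' : ℝ → ℝ} (hw : ∀ t, HasDerivAt w (w' t) t) {a b p c : ℝ}
    (ha : w a ≤ p) (hb : ∀ t ∈ Ico a b, w t = p + c * (t - a) → w' t < c) :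
    ∀ t ∈ Icc a b, w t ≤ p + c * (t - a) := by
  have hB : ∀ t : ℝ, HasDerivAt (fun t : ℝ => p + c * (t - a)) c t := fun t => by
    simpa using (((hasDerivAt_id t).sub_const a).const_mul c).const_add p
  intro t ht
  exact image_le_of_deriv_right_lt_deriv_boundary' (f := w) (f' := w') (a := a) (b := b)
    (B := fun t : ℝ => p + c * (t - a)) (B' := fun _ => c)
    (fun t _ => (hw t).continuousAt.continuousWithinAt) (fun t _ => (hw t).hasDerivWithinAt)
    (by simpa using ha) (fun t _ => (hB t).continuousAt.continuousWithinAt)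
    (fun t _ => (hB t).hasDerivWithinAt) hb ht

/-- constant upper barrier -/
theorem barrier0 {w w' : ℝ → ℝ} (hw : ∀ t, HasDerivAt w (w' t) t) {a b p : ℝ}
    (ha : w a ≤ p) (hb : ∀ t ∈ Ico a b, w t = p → w' t < 0) :
    ∀ t ∈ Icc a b, w t ≤ p := by
  intro t ht
  have := barrier (c := 0) hw ha (fun s hs h => hb s hs (by simpa using h)) t ht
  simpa using this

/-- constant upper barrier, backwards -/
theorem barrier_back {w w' : ℝ → ℝ} (hw : ∀ t, HasDerivAt w (w' t) t) {a b p : ℝ}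
    (hb : w b ≤ p) (h : ∀ t ∈ Ioc a b, w t = p → 0 < w' t) :
    ∀ t ∈ Icc a b, w t ≤ p := by
  intro t ht
  have hu : ∀ s, HasDerivAt (fun s => w (a + b - s)) (-(w' (a + b - s))) s := fun s =>
    (hw (a + b - s)).comp_const_sub (a + b) s
  have h2 := barrier0 (a := a) (b := b) (p := p) hu (by simpa using hb)
    (fun s hs hs2 => by
      have := h (a + b - s) ⟨by linarith [hs.2], by linarith [hs.1]⟩ hs2
      linarith) (a + b - t) ⟨by linarith [ht.2], by linarith [ht.1]⟩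
  simpa using h2

/-! ### The truncated equation -/

/-- the square of the value cut off at `± M` -/
noncomputable def tr (M w : ℝ) : ℝ := (max (-M) (min w M)) ^ 2

theorem tr_abs {M : ℝ} (hM : 0 < M) (w : ℝ) : |max (-M) (min w M)| ≤ M := by
  rw [abs_le]
  exact ⟨le_max_left _ _, max_le (by linarith) (min_le_right _ _)⟩

theorem tr_nonneg (M w : ℝ) : 0 ≤ tr M w := sq_nonneg _

theorem tr_le {M : ℝ} (hM : 0 < M) (w : ℝ) : tr M w ≤ M ^ 2 :=
  sq_le_sq' (abs_le.1 (tr_abs hM w)).1 (abs_le.1 (tr_abs hM w)).2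

theorem tr_eq {M w : ℝ} (hw : |w| ≤ M) : tr M w = w ^ 2 := by
  unfold tr
  rw [min_eq_left (abs_le.1 hw).2, max_eq_right (abs_le.1 hw).1]

theorem tr_neg {M : ℝ} (hM : 0 < M) (w : ℝ) : tr M (-w) = tr M w := by
  unfold tr
  have : max (-M) (min (-w) M) = -(max (-M) (min w M)) := by
    rcases le_total w M with h1 | h1 <;> rcases le_total (-w) M with h2 | h2
    · rw [min_eq_left h1, min_eq_left h2, max_eq_right (by linarith), max_eq_right (by linarith)]
    · rw [min_eq_left h1, min_eq_right h2, max_eq_right (by linarith), max_eq_left (by linarith)]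
      ring
    · rw [min_eq_right h1, min_eq_left h2, max_eq_left (by linarith), max_eq_right (by linarith)]
    · rw [min_eq_right h1, min_eq_right h2, max_eq_right (by linarith)]
      linarith
  rw [this, neg_sq]

theorem tr_lip {M : ℝ} (hM : 0 < M) (x y : ℝ) : |tr M x - tr M y| ≤ 2 * M * |x - y| := by
  unfold tr
  set a := max (-M) (min x M)
  set b := max (-M) (min y M)
  have ha := tr_abs hM x
  have hb := tr_abs hM y
  have h1 : |a - b| ≤ |x - y| := by
    refine (abs_max_sub_max_le_max _ _ _ _).trans ?_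
    simp only [sub_self, abs_zero]
    refine max_le (abs_nonneg _) ?_
    refine (abs_min_sub_min_le_max _ _ _ _).trans ?_
    simp
  have h2 : a ^ 2 - b ^ 2 = (a + b) * (a - b) := by ring
  rw [h2, abs_mul]
  exact mul_le_mul ((abs_add_le _ _).trans (by linarith)) h1 (abs_nonneg _) (by positivity)

/-- the right hand side of the truncated equation -/
noncomputable def rh (V : ℝ → ℝ) (M ε E t w : ℝ) : ℝ := (tr M w - V t + E) / ε

theorem rh_lip {V : ℝ → ℝ} {M ε : ℝ} (hM : 0 < M) (hε : 0 < ε) (E t : ℝ) :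
    LipschitzWith (2 * M / ε).toNNReal (rh V M ε E t) := by
  refine LipschitzWith.of_dist_le_mul fun x y => ?_
  rw [Real.dist_eq, Real.dist_eq, Real.coe_toNNReal _ (by positivity)]
  unfold rh
  rw [← sub_div, abs_div, abs_of_pos hε]
  have h1 : tr M x - V t + E - (tr M y - V t + E) = tr M x - tr M y := by ring
  rw [h1, div_mul_eq_mul_div]
  exact div_le_div_of_nonneg_right (tr_lip hM x y) hε.le

theorem rh_bd {V : ℝ → ℝ} {M ε B : ℝ} (hM : 0 < M) (hε : 0 < ε) (hV : ∀ t, |V t| ≤ B)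
    (E t x : ℝ) : ‖rh V M ε E t x‖ ≤ ((M ^ 2 + B + |E|) / ε).toNNReal := by
  have hB : 0 ≤ B := (abs_nonneg _).trans (hV 0)
  rw [Real.coe_toNNReal _ (by positivity), Real.norm_eq_abs]
  unfold rh
  rw [abs_div, abs_of_pos hε]
  refine div_le_div_of_nonneg_right ?_ hε.le
  have h1 : |tr M x| ≤ M ^ 2 := by
    rw [abs_of_nonneg (tr_nonneg M x)]
    exact tr_le hM x
  calc |tr M x - V t + E| ≤ |tr M x - V t| + |E| := abs_add_le _ _
    _ ≤ (|tr M x| + |V t|) + |E| := by
        have := abs_sub (tr M x) (V t)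
        linarith
    _ ≤ _ := by linarith [hV t]

theorem exists_rh {V : ℝ → ℝ} {M ε B : ℝ} (hM : 0 < M) (hε : 0 < ε) (hVc : Continuous V)
    (hV : ∀ t, |V t| ≤ B) (E : ℝ) :
    ∃ w : ℝ → ℝ, w 0 = 0 ∧ ∀ t, HasDerivAt w (rh V M ε E t (w t)) t := by
  refine exists_sol (f := rh V M ε E) (fun t => rh_lip hM hε E t) (fun x => ?_)
    (fun t x => rh_bd hM hε hV E t x) 0
  unfold rh
  fun_prop

theorem rh_unique {V : ℝ → ℝ} {M ε : ℝ} (hM : 0 < M) (hε : 0 < ε) {E t₀ : ℝ} {w u : ℝ → ℝ}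
    (hw : ∀ t, HasDerivAt w (rh V M ε E t (w t)) t)
    (hu : ∀ t, HasDerivAt u (rh V M ε E t (u t)) t) (h : w t₀ = u t₀) : w = u :=
  ODE_solution_unique_univ (v := rh V M ε E) (s := fun _ => univ)
    (fun t => (rh_lip hM hε E t).lipschitzOnWith) (fun t => ⟨hw t, trivial⟩)
    (fun t => ⟨hu t, trivial⟩) h

/-- dependence on the constant -/
theorem rh_dep {V : ℝ → ℝ} {M ε : ℝ} (hM : 0 < M) (hε : 0 < ε) {E E' : ℝ} {w u : ℝ → ℝ}
    (hw : ∀ t, HasDerivAt w (rh V M ε E t (w t)) t)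
    (hu : ∀ t, HasDerivAt u (rh V M ε E' t (u t)) t) (h : w 0 = u 0) :
    dist (w (1 / 2)) (u (1 / 2)) ≤
      gronwallBound 0 (2 * M / ε).toNNReal (|E' - E| / ε) (1 / 2) := by
  have := dist_le_of_approx_trajectories_ODE (v := rh V M ε E) (f := w) (g := u)
    (f' := fun t => rh V M ε E t (w t)) (g' := fun t => rh V M ε E' t (u t)) (a := 0) (b := 1 / 2)
    (εf := 0) (εg := |E' - E| / ε) (δ := 0) (fun t => rh_lip hM hε E t)
    (fun t _ => (hw t).continuousAt.continuousWithinAt) (fun t _ => (hw t).hasDerivWithinAt)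
    (fun t _ => by simp)
    (fun t _ => (hu t).continuousAt.continuousWithinAt) (fun t _ => (hu t).hasDerivWithinAt)
    (fun t _ => by
      rw [Real.dist_eq]
      unfold rh
      rw [← sub_div, abs_div, abs_of_pos hε]
      refine le_of_eq ?_
      congr 2
      ring) (by simp [h]) (1 / 2) ⟨by norm_num, le_rfl⟩
  simpa using this

/-- Existence of an odd periodic solution of the Riccati equation. -/
theorem exists_riccati {V : ℝ → ℝ} {ε B : ℝ} (hε : 0 < ε) (hVc : Continuous V)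
    (hV0 : ∀ t, 0 ≤ V t) (hVB : ∀ t, V t ≤ B) (hVe : ∀ t, V (-t) = V t)
    (hVp : ∀ t, V (t + 1) = V t) :
    ∃ (E : ℝ) (w : ℝ → ℝ), w 0 = 0 ∧ w (1 / 2) = 0 ∧ (∀ t, w (-t) = -w t) ∧
      (∀ t, w (t + 1) = w t) ∧ (∀ t, |w t| ≤ B + 2) ∧
      ∀ t, HasDerivAt w ((w t ^ 2 - V t + E) / ε) t := by
  have hB : 0 ≤ B := (hV0 0).trans (hVB 0)
  set M : ℝ := B + 2 with hMdef
  have hM : 0 < M := by linarith
  have hVabs : ∀ t, |V t| ≤ B := fun t => by rw [abs_of_nonneg (hV0 t)]; exact hVB t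
  choose W hW0 hW using fun E : ℝ => exists_rh (E := E) hM hε hVc hVabs
  -- continuity of the end value
  have hcont : Continuous fun E => W E (1 / 2) := by
    rw [continuous_iff_continuousAt]
    intro E₀
    rw [ContinuousAt, tendsto_iff_dist_tendsto_zero]
    have hg : Tendsto (fun E => gronwallBound 0 (2 * M / ε).toNNReal (|E - E₀| / ε) (1 / 2))
        (𝓝 E₀) (𝓝 0) := by
      have h1 : Continuous fun E : ℝ =>
          gronwallBound 0 (2 * M / ε).toNNReal (|E - E₀| / ε) (1 / 2) :=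
        (gronwallBound_continuous_ε 0 _ (1 / 2)).comp (by fun_prop)
      have h2 := h1.tendsto E₀
      simpa [gronwallBound_ε0_δ0] using h2
    refine squeeze_zero (fun _ => dist_nonneg) (fun E => ?_) hg
    rw [dist_comm]
    exact rh_dep hM hε (hW E₀) (hW E) (by rw [hW0, hW0])
  have hneg : W (-1) (1 / 2) ≤ 0 := by
    refine barrier0 (a := 0) (b := 1 / 2) (hW (-1)) (hW0 _).le (fun t _ ht => ?_) (1 / 2)
      ⟨by norm_num, le_rfl⟩
    rw [ht]
    unfold rh
    have h0 : tr M 0 = 0 := by rw [tr_eq (by simpa using hM.le)]; norm_num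
    rw [h0]
    exact div_neg_of_neg_of_pos (by linarith [hV0 t]) hε
  have hpos : 0 ≤ W (B + 1) (1 / 2) := by
    have h1 := barrier0 (w := fun t => -(W (B + 1) t)) (a := 0) (b := 1 / 2) (p := 0)
      (fun t => (hW (B + 1) t).neg) (by simp [hW0]) (fun t _ ht => ?_) (1 / 2)
      ⟨by norm_num, le_rfl⟩
    · linarith
    · have ht' : W (B + 1) t = 0 := by linarith
      rw [ht']
      unfold rh
      have h0 : tr M 0 = 0 := by rw [tr_eq (by simpa using hM.le)]; norm_num
      rw [h0]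
      have : 0 < (0 - V t + (B + 1)) / ε := div_pos (by linarith [hVB t]) hε
      linarith
  obtain ⟨E, hE, hE0⟩ := intermediate_value_Icc (by linarith : (-1:ℝ) ≤ B + 1)
    hcont.continuousOn ⟨hneg, hpos⟩
  simp only at hE0
  set w := W E with hwdef
  have hw := hW E
  have hw0 := hW0 E
  rw [← hwdef] at hw hw0
  -- oddness
  have hodd : ∀ t, w (-t) = -w t := by
    have h1 : ∀ t, HasDerivAt (fun t => -(w (-t))) (rh V M ε E t (-(w (-t)))) t := by
      intro t
      have h2 : HasDerivAt (fun t => w (-t)) (rh V M ε E (-t) (w (-t)) * -1) t :=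
        (hw (-t)).comp t (hasDerivAt_neg t)
      refine h2.fun_neg.congr_deriv ?_
      unfold rh
      rw [hVe, tr_neg hM]
      ring
    have h3 := rh_unique (t₀ := 0) hM hε h1 hw (by simp [hw0])
    intro t
    have h4 : -(w (-t)) = w t := congrFun h3 t
    linarith
  have hper : ∀ t, w (t + 1) = w t := by
    have h1 : ∀ t, HasDerivAt (fun t => w (t + 1)) (rh V M ε E t (w (t + 1))) t := by
      intro t
      have h2 := (hw (t + 1)).comp_add_const t 1
      refine h2.congr_deriv ?_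
      unfold rh
      rw [hVp]
    have h3 := rh_unique (t₀ := -(1 / 2)) hM hε h1 hw (by
      rw [hodd (1 / 2), hE0]
      norm_num
      exact hE0)
    exact fun t => congrFun h3 t
  -- the bound
  have hM2 : ∀ t, 0 < M ^ 2 - V t + E := fun t => by nlinarith [hVB t, hE.1]
  have htrM : tr M M = M ^ 2 := tr_eq (by rw [abs_of_pos hM])
  have hup : ∀ t ∈ Icc (0 : ℝ) (1 / 2), w t ≤ M := by
    refine barrier_back hw (by rw [hE0]; exact hM.le) fun t _ ht => ?_
    rw [ht]
    unfold rh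
    rw [htrM]
    exact div_pos (hM2 t) hε
  have hlo : ∀ t ∈ Icc (0 : ℝ) (1 / 2), -w t ≤ M := by
    refine barrier0 (fun t => (hw t).neg) (by simpa [hw0] using hM.le) fun t _ ht => ?_
    have ht' : w t = -M := by
      simp only [Pi.neg_apply] at ht
      linarith
    rw [ht']
    unfold rh
    rw [tr_neg hM, htrM]
    have := div_pos (hM2 t) hε
    linarith
  have hbd1 : ∀ t ∈ Icc (-(1 / 2) : ℝ) (1 / 2), |w t| ≤ M := by
    intro t ht
    rcases le_total 0 t with h | h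
    · rw [abs_le]
      exact ⟨by linarith [hlo t ⟨h, ht.2⟩], hup t ⟨h, ht.2⟩⟩
    · have h1 := hup (-t) ⟨by linarith, by linarith [ht.1]⟩
      have h2 := hlo (-t) ⟨by linarith, by linarith [ht.1]⟩
      rw [hodd] at h1 h2
      rw [abs_le]
      exact ⟨by linarith, by linarith⟩
  have hbd : ∀ t, |w t| ≤ M := by
    intro t
    have hP : Function.Periodic w 1 := hper
    obtain ⟨s, hs, hs2⟩ := hP.exists_mem_Ico one_pos t (-(1 / 2))
    rw [hs2]
    exact hbd1 s ⟨hs.1, by linarith [hs.2]⟩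
  refine ⟨E, w, hw0, hE0, hodd, hper, hbd, fun t => ?_⟩
  have := hw t
  unfold rh at this
  rwa [tr_eq (hbd t)] at this

end Pool.Agent.Y317.VM
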